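import Pool.Agent.Y853.HM.Gon3
import Pool.Agent.Y853.HM.Lio2

/-!
# Consequences of either half of Gonek's conjecture, and of its analogue for the Liouville function

Let `M(x) = ∑_{n ≤ x} μ(n)`, `L(x) = ∑_{n ≤ x} λ(n)` and `F(x) = x^{1/2} (log log log x)^{5/4}`.

(I) Suppose that ONE of the two limits in Q1 is finite: `limsup_{x → ∞} s M(x)/F(x) ≤ B < ∞` for one sign
`s = 1` or `s = -1`.  Then:

* the Riemann Hypothesis holds and all nontrivial zeros of `ζ` are simple;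
* `1/|ρ ζ'(ρ)| ≤ (2B + o(1)) (log log |ρ|)^{5/4}` as `|ρ| → ∞`, so that
  `B ≥ ½ limsup_ρ 1/(|ρ ζ'(ρ)| (log log |ρ|)^{5/4})`;
* uniformly in the ordinate, `|s ζ(s)| ≥ (2B + o(1))^{-1} (σ - 1/2) (log log 1/(σ - 1/2))^{-5/4}` for
  `s = σ + it`, `σ → 1/2+`;
* both signs are controlled in mean:
  `∫_1^x |M(u)| u^{-3/2} du ≤ (2 e B + o(1)) log x (log log log x)^{5/4}`.

(II) Suppose that ONE of the two limits in Q2 is finite: `limsup_{x → ∞} s L(x)/F(x) ≤ B < ∞`.  Then the same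
conclusions hold, with `|ζ(2s)|` as an additional factor in the lower bound for `|s ζ(s)|` (and without the
second item).
-/

set_option autoImplicit false

open Filter Topology MeasureTheory

namespace Pool.Agent.Results.MP_a499ba_nt.OneSidedGonek

/-- the Mertens function -/
noncomputable def M (x : ℝ) : ℝ := ∑ n ∈ Finset.Icc 1 ⌊x⌋₊, ((ArithmeticFunction.moebius n : ℤ) : ℝ)

/-- the summatory function of the Liouville function -/
noncomputable def L (x : ℝ) : ℝ := ∑ n ∈ Finset.Icc 1 ⌊x⌋₊, ((ArithmeticFunction.liouville n : ℤ) : ℝ)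

/-- `F(x) = x^{1/2} (log log log x)^{5/4}` -/
noncomputable def F (x : ℝ) : ℝ := Real.sqrt x * Real.log (Real.log (Real.log x)) ^ ((5 : ℝ) / 4)

/-- the upper limit of `s G(x) / F(x)` as `x → ∞` is at most `B` -/
def UpperLimit (G : ℝ → ℝ) (s B : ℝ) : Prop :=
  Filter.limsup (fun x : ℝ => ((s * (G x / F x) : ℝ) : EReal)) atTop ≤ (B : EReal)

/-- the nontrivial zeros of the Riemann zeta function -/
def NT : Set ℂ := {s | riemannZeta s = 0 ∧ 0 < s.re ∧ s.re < 1}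

theorem eventually_of_limsup {G : ℝ → ℝ} {s B : ℝ} (h : UpperLimit G s B) {B' : ℝ} (hB : B < B') :
    ∀ᶠ x : ℝ in atTop, s * G x ≤ B' * F x := by
  have h1 : Filter.limsup (fun x : ℝ => ((s * (G x / F x) : ℝ) : EReal)) atTop < (B' : EReal) :=
    h.trans_lt (by exact_mod_cast hB)
  have h2 := eventually_lt_of_limsup_lt h1
  have h3 : ∀ᶠ x : ℝ in atTop, 0 < Real.log (Real.log (Real.log x)) :=
    (Real.tendsto_log_atTop.comp (Real.tendsto_log_atTop.comp Real.tendsto_log_atTop)).eventually_gt_atTop 0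
  filter_upwards [h2, h3, eventually_gt_atTop 0] with x hx hx3 hx0
  have hF : 0 < F x := by
    unfold F
    positivity
  have h4 : s * (G x / F x) < B' := by exact_mod_cast hx
  have h5 : s * G x < B' * F x := by
    have := mul_lt_mul_of_pos_right h4 hF
    rwa [mul_assoc, div_mul_cancel₀ _ hF.ne'] at this
  exact h5.le

theorem result (s B : ℝ) (hs : s = 1 ∨ s = -1) (hB : 0 ≤ B) :
    (UpperLimit M s B →
      (∀ ρ ∈ NT, ρ.re = 1 / 2 ∧ deriv riemannZeta ρ ≠ 0) ∧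
      (∀ ε : ℝ, 0 < ε → ∃ T : ℝ, ∀ ρ ∈ NT, T ≤ ‖ρ‖ →
        1 / ‖ρ * deriv riemannZeta ρ‖ ≤ (2 * B + ε) * Real.log (Real.log ‖ρ‖) ^ ((5 : ℝ) / 4)) ∧
      (∀ ε : ℝ, 0 < ε → ∃ σ₀ : ℝ, 1 / 2 < σ₀ ∧ ∀ σ t : ℝ, 1 / 2 < σ → σ < σ₀ →
        σ - 1 / 2 ≤ (2 * B + ε) * Real.log (Real.log (1 / (σ - 1 / 2))) ^ ((5 : ℝ) / 4) *
          ‖(σ + t * Complex.I) * riemannZeta (σ + t * Complex.I)‖) ∧
      (∀ ε : ℝ, 0 < ε → ∀ᶠ x : ℝ in atTop, ∫ u in (1:ℝ)..x, |M u| * u ^ (-(3 / 2) : ℝ) ≤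
        (2 * Real.exp 1 * B + ε) * (Real.log x * Real.log (Real.log (Real.log x)) ^ ((5 : ℝ) / 4)))) ∧
    (UpperLimit L s B →
      (∀ ρ ∈ NT, ρ.re = 1 / 2 ∧ deriv riemannZeta ρ ≠ 0) ∧
      (∀ ε : ℝ, 0 < ε → ∃ σ₀ : ℝ, 1 / 2 < σ₀ ∧ ∀ σ t : ℝ, 1 / 2 < σ → σ < σ₀ →
        (σ - 1 / 2) * ‖riemannZeta (2 * (σ + t * Complex.I))‖ ≤
          (2 * B + ε) * Real.log (Real.log (1 / (σ - 1 / 2))) ^ ((5 : ℝ) / 4) *
          ‖(σ + t * Complex.I) * riemannZeta (σ + t * Complex.I)‖) ∧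
      (∀ ε : ℝ, 0 < ε → ∀ᶠ x : ℝ in atTop, ∫ u in (1:ℝ)..x, |L u| * u ^ (-(3 / 2) : ℝ) ≤
        (2 * Real.exp 1 * B + ε) * (Real.log x * Real.log (Real.log (Real.log x)) ^ ((5 : ℝ) / 4)))) := by
  refine ⟨fun h => ?_, fun h => ?_⟩
  · have hev : ∀ η : ℝ, 0 < η → 0 < B + η ∧ ∀ᶠ x : ℝ in atTop, s * M x ≤ (B + η) * F x := fun η hη =>
      ⟨by linarith, eventually_of_limsup h (by linarith)⟩
    refine ⟨fun ρ hρ => ?_, fun ε hε => ?_, fun ε hε => ?_, fun ε hε => ?_⟩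
    · obtain ⟨h1, h2⟩ := hev 1 one_pos
      exact Pool.Agent.Y853.HM.zeros_G hs h1 h2 hρ
    · obtain ⟨h1, h2⟩ := hev (ε / 4) (by positivity)
      obtain ⟨T, hT⟩ := eventually_atTop.1 (Pool.Agent.Y853.HM.coef_G hs h1 h2 (show 0 < ε / 2 by positivity))
      refine ⟨T, fun ρ hρ hρT => ?_⟩
      have h3 := Pool.Agent.Y853.HM.zeros_G hs h1 h2 hρ
      have h4 := Pool.Agent.Y853.HM.pt_of h3.1
      have h5 := hT _ hρT ρ.im (by rw [h4]; exact hρ.1) (by rw [h4])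
      rw [h4] at h5
      refine h5.trans (le_of_eq ?_)
      unfold Pool.Agent.Y853.HM.q
      ring
    · obtain ⟨h1, h2⟩ := hev (ε / 4) (by positivity)
      have h3 := Pool.Agent.Y853.HM.lower_G hs h1 h2 (show 0 < ε / 2 by positivity)
      rw [eventually_nhdsWithin_iff, Metric.eventually_nhds_iff] at h3
      obtain ⟨r, hr, h3⟩ := h3
      refine ⟨1 / 2 + r, by linarith, fun σ t h4 h5 => ?_⟩
      have h6 := h3 (y := σ - 1 / 2) (by
        rw [Real.dist_eq, sub_zero, abs_of_pos (by linarith)]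
        linarith) (by show (0 : ℝ) < σ - 1 / 2; linarith) t
      have e1 : Pool.Agent.Y853.HM.pt t + ((σ - 1 / 2 : ℝ) : ℂ) = σ + t * Complex.I := by
        unfold Pool.Agent.Y853.HM.pt
        push_cast
        ring
      rw [e1] at h6
      refine h6.trans (le_of_eq ?_)
      unfold Pool.Agent.Y853.HM.q
      rw [one_div]
      ring
    · obtain ⟨h1, h2⟩ := hev (ε / (4 * Real.exp 1)) (by positivity)
      have h3 := Pool.Agent.Y853.HM.mean_G hs h1 h2 (show 0 < ε / 2 by positivity)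
      filter_upwards [h3] with x hx
      refine hx.trans (le_of_eq ?_)
      congr 1
      field_simp
      ring
  · have hev : ∀ η : ℝ, 0 < η → 0 < B + η ∧ ∀ᶠ x : ℝ in atTop, s * L x ≤ (B + η) * F x := fun η hη =>
      ⟨by linarith, eventually_of_limsup h (by linarith)⟩
    refine ⟨fun ρ hρ => ?_, fun ε hε => ?_, fun ε hε => ?_⟩
    · obtain ⟨h1, h2⟩ := hev 1 one_pos
      exact Pool.Agent.Y853.HML.zeros_G hs h1 h2 hρ.1 hρ.2.1 hρ.2.2
    · obtain ⟨h1, h2⟩ := hev (ε / 4) (by positivity)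
      have h3 := Pool.Agent.Y853.HML.lower_G hs h1 h2 (show 0 < ε / 2 by positivity)
      rw [eventually_nhdsWithin_iff, Metric.eventually_nhds_iff] at h3
      obtain ⟨r, hr, h3⟩ := h3
      refine ⟨1 / 2 + r, by linarith, fun σ t h4 h5 => ?_⟩
      have h6 := h3 (y := σ - 1 / 2) (by
        rw [Real.dist_eq, sub_zero, abs_of_pos (by linarith)]
        linarith) (by show (0 : ℝ) < σ - 1 / 2; linarith) t
      have e1 : Pool.Agent.Y853.HM.pt t + ((σ - 1 / 2 : ℝ) : ℂ) = σ + t * Complex.I := by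
        unfold Pool.Agent.Y853.HM.pt
        push_cast
        ring
      rw [e1] at h6
      refine h6.trans (le_of_eq ?_)
      unfold Pool.Agent.Y853.HM.q
      rw [one_div]
      ring
    · obtain ⟨h1, h2⟩ := hev (ε / (4 * Real.exp 1)) (by positivity)
      have h3 := Pool.Agent.Y853.HML.mean_G hs h1 h2 (show 0 < ε / 2 by positivity)
      filter_upwards [h3] with x hx
      refine hx.trans (le_of_eq ?_)
      congr 1
      field_simp
      ring

end Pool.Agent.Results.MP_a499ba_nt.OneSidedGonek
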