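import Pool.Agent.Y763.SJ.P2

/-!
# Oscillation of the Mertens function in short intervals

`M(x) = ∑_{n ≤ x} μ(n)` and `Δ_T(x) = (M(x + x/(2T)) - M(x - x/(2T))) / √x`, for a fixed `T ≥ 1`.
Unconditionally:

* the upper limit of `Δ_T(x)`, as `x → ∞`, is at least `1 - C/√T`, and its lower limit is at most
  `-1/√2 + C/√T`: in relatively arbitrarily short intervals `M` has increases and decreases of the full
  order `√x`; so for every `K` and every large `T` both `M(x + h/2) - M(x - h/2) ≥ K √h` and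
  `M(x + h/2) - M(x - h/2) ≤ -K √h` occur for arbitrarily large `x`, where `h = x/T`;
* the upper limit of `Δ_T` is at least `Δ_T(x₀) - C/(x₀ √T)` and its lower limit is at most
  `Δ_T(x₀) + C/(x₀ √T)`, for every `x₀ ≥ 1`;
* if `Δ_T` is bounded above (below), then the values near the upper (lower) one occur for a set of `x` of
  positive lower logarithmic density.
-/

set_option autoImplicit false

open Filter Topology MeasureTheory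

namespace Pool.Agent.Results.MP_a499ba_nt.ShortIntervalOscillation

/-- the Mertens function `M(x) = ∑_{n ≤ x} μ(n)` -/
noncomputable def M (x : ℝ) : ℝ := ∑ n ∈ Finset.Icc 1 ⌊x⌋₊, ((ArithmeticFunction.moebius n : ℤ) : ℝ)

/-- `Δ_T(x) = (M(x + x/(2T)) - M(x - x/(2T))) / √x` -/
noncomputable def Δ (T x : ℝ) : ℝ := (M (x + x / (2 * T)) - M (x - x / (2 * T))) / √x

theorem result :
    (∀ K : ℝ, ∃ T₀ : ℝ, 1 ≤ T₀ ∧ ∀ T : ℝ, T₀ ≤ T →
      (∃ᶠ x : ℝ in atTop, K * √(x / T) ≤ M (x + x / (2 * T)) - M (x - x / (2 * T))) ∧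
      ∃ᶠ x : ℝ in atTop, M (x + x / (2 * T)) - M (x - x / (2 * T)) ≤ -(K * √(x / T))) ∧
    ∃ C : ℝ, 0 < C ∧ ∀ T : ℝ, 1 ≤ T →
      (∃ᶠ x : ℝ in atTop, 1 - C / √T ≤ Δ T x) ∧
      (∃ᶠ x : ℝ in atTop, Δ T x ≤ -(1 / √2) + C / √T) ∧
      (∀ x₀ : ℝ, 1 ≤ x₀ → ∀ δ : ℝ, 0 < δ →
        (∃ᶠ x : ℝ in atTop, Δ T x₀ - C / (x₀ * √T) - δ ≤ Δ T x) ∧
        ∃ᶠ x : ℝ in atTop, Δ T x ≤ Δ T x₀ + C / (x₀ * √T) + δ) ∧
      ((∃ B : ℝ, ∀ x : ℝ, 1 ≤ x → Δ T x ≤ B) → ∀ x₀ : ℝ, 1 ≤ x₀ → ∀ δ : ℝ, 0 < δ →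
        ∃ c : ℝ, 0 < c ∧ ∀ᶠ V : ℝ in atTop, c * V ≤
          (volume {v : ℝ | 0 ≤ v ∧ v ≤ V ∧ Δ T x₀ - C / (x₀ * √T) - δ ≤ Δ T (Real.exp v)}).toReal) ∧
      ((∃ B : ℝ, ∀ x : ℝ, 1 ≤ x → B ≤ Δ T x) → ∀ x₀ : ℝ, 1 ≤ x₀ → ∀ δ : ℝ, 0 < δ →
        ∃ c : ℝ, 0 < c ∧ ∀ᶠ V : ℝ in atTop, c * V ≤
          (volume {v : ℝ | 0 ≤ v ∧ v ≤ V ∧ Δ T (Real.exp v) ≤ Δ T x₀ + C / (x₀ * √T) + δ}).toReal) := by
  have h := Pool.Agent.Y763.SJ.finalU
  refine ⟨fun K => ?_, h⟩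
  obtain ⟨C, hC, hT⟩ := h
  obtain ⟨D, hD⟩ : ∃ D : ℝ, D = C + |K| := ⟨_, rfl⟩
  have hD0 : 0 < D := by rw [hD]; linarith [abs_nonneg K]
  have hDK : C + K ≤ D := by rw [hD]; linarith [le_abs_self K]
  refine ⟨1 + (2 * D) ^ 2, by nlinarith [sq_nonneg (2 * D)], fun T hT1 => ?_⟩
  have hT1' : 1 ≤ T := by nlinarith [sq_nonneg (2 * D)]
  have hT0 : 0 < √T := Real.sqrt_pos.2 (by linarith)
  have hTD : 2 * D ≤ √T := Real.le_sqrt_of_sq_le (by linarith)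
  obtain ⟨r, hr⟩ : ∃ r : ℝ, r = 1 / √T := ⟨_, rfl⟩
  have hr0 : 0 < r := by rw [hr]; positivity
  have hrD : (C + K) * r ≤ 1 / 2 := by
    rw [hr, mul_one_div, div_le_iff₀ hT0]
    linarith
  have hCr : C / √T = C * r := by rw [hr]; ring
  have hs2 : 1 / 2 ≤ 1 / √2 := by
    have h2 : √2 ≤ 2 := by
      rw [Real.sqrt_le_left (by norm_num)]
      norm_num
    have : 0 < √2 := Real.sqrt_pos.2 (by norm_num)
    gcongr
  have hdel : ∀ x : ℝ, Pool.Agent.Y763.SJ.Del T x = (M (x + x / (2 * T)) - M (x - x / (2 * T))) / √x := fun x => rfl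
  have hsx : ∀ x : ℝ, 0 < x → K * √(x / T) = K * r * √x := by
    intro x hx
    rw [Real.sqrt_div hx.le, hr]
    ring
  constructor
  · refine ((hT T hT1').1.and_eventually (eventually_gt_atTop (0:ℝ))).mono ?_
    rintro x ⟨h1, hx⟩
    have hx0 : 0 < √x := Real.sqrt_pos.2 hx
    rw [hdel, le_div_iff₀ hx0, hCr] at h1
    rw [hsx x hx]
    have h2 : K * r * √x ≤ (1 - C * r) * √x := mul_le_mul_of_nonneg_right (by nlinarith) hx0.le
    linarith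
  · refine ((hT T hT1').2.1.and_eventually (eventually_gt_atTop (0:ℝ))).mono ?_
    rintro x ⟨h1, hx⟩
    have hx0 : 0 < √x := Real.sqrt_pos.2 hx
    rw [hdel, div_le_iff₀ hx0, hCr] at h1
    rw [hsx x hx]
    have h2 : K * r * √x ≤ (1 / √2 - C * r) * √x := mul_le_mul_of_nonneg_right (by nlinarith) hx0.le
    linarith

end Pool.Agent.Results.MP_a499ba_nt.ShortIntervalOscillation
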